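import Mathlib

/-!
# A distance-regular graph that is not core-complete

The Shrikhande graph `S` is the Cayley graph of `Z₄ × Z₄` with connection set `±(1,0), ±(0,1), ±(1,1)`;
it has clique number 3 and chromatic number 4. The Cartesian product `S □ S` (a Doob graph, 256
vertices) is distance-regular with intersection array `{12, 9, 6, 3; 1, 2, 3, 4}`. Since `S` is a Cayley
graph of an abelian group, `(x, y) ↦ x + y` is a homomorphism from `S □ S` onto `S`, so `S □ S` retracts
onto a copy of `S` and is not a core. Its core is not complete either: `S □ S` has no clique with four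
vertices and no proper colouring with three colours.
-/

set_option autoImplicit false
set_option maxRecDepth 100000

namespace Pool.Agent.Results.MP_06b6d5_co.DoobGraph

/-- a graph is a core if each of its endomorphisms is an automorphism -/
def IsCore {W : Type} (Y : SimpleGraph W) : Prop :=
  ∀ f : Y →g Y, ∃ e : Y ≃g Y, ∀ w, e w = f w

/-- `Y` is a core of the graph `X`: it is a core, `X` has a homomorphism to it, and it is isomorphic to an
induced subgraph of `X` -/
structure IsCoreOf {V W : Type} (Y : SimpleGraph W) (X : SimpleGraph V) : Prop where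
  core : IsCore Y
  hom : Nonempty (X →g Y)
  emb : Nonempty (Y ↪g X)

/-- distance-regular graphs: connected, and the numbers of neighbours of `v` that are closer to `u`, or
farther from `u`, than `v` depend only on the distance of `u` and `v` -/
def IsDistanceRegular {V : Type} (X : SimpleGraph V) : Prop :=
  X.Connected ∧ ∃ b c : ℕ → ℕ, ∀ u v : V,
    {w | X.Adj v w ∧ X.dist u w + 1 = X.dist u v}.ncard = c (X.dist u v) ∧
    {w | X.Adj v w ∧ X.dist u w = X.dist u v + 1}.ncard = b (X.dist u v)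

/-- core-complete graphs: the core is isomorphic to the graph or complete -/
def CoreComplete {V : Type} (X : SimpleGraph V) : Prop :=
  ∃ (W : Type) (Y : SimpleGraph W), IsCoreOf Y X ∧ (Nonempty (X ≃g Y) ∨ Y = ⊤)

/-! ### every finite graph has a core -/

theorem bijective_hom {W : Type} [Finite W] (Y : SimpleGraph W) (f : Y →g Y)
    (hf : Function.Bijective f) : ∃ e : Y ≃g Y, ∀ w, e w = f w := by
  classical
  have := Fintype.ofFinite W
  let σ : Equiv.Perm W := Equiv.ofBijective f hf
  have hσ : ∀ a, σ a = f a := fun a => rfl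
  have hpow : ∀ (k : ℕ) (a b : W), Y.Adj a b → Y.Adj ((σ ^ k) a) ((σ ^ k) b) := by
    intro k
    induction k with
    | zero => intro a b h; simpa using h
    | succ k ih =>
      intro a b h
      rw [pow_succ', Equiv.Perm.mul_apply, Equiv.Perm.mul_apply, hσ, hσ]
      exact f.map_adj (ih a b h)
  refine ⟨{ toEquiv := σ, map_rel_iff' := ?_ }, fun w => rfl⟩
  intro a b
  constructor
  · intro h
    have h1 := hpow (orderOf σ - 1) _ _ h
    have h2 : ∀ x, (σ ^ (orderOf σ - 1)) (σ x) = x := by
      intro x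
      rw [← Equiv.Perm.mul_apply, ← pow_succ, Nat.sub_add_cancel (orderOf_pos σ),
        pow_orderOf_eq_one, Equiv.Perm.one_apply]
    rwa [h2, h2] at h1
  · intro h
    exact f.map_adj h

theorem exists_core {V : Type} [Finite V] (X : SimpleGraph V) :
    ∃ S : Set V, IsCoreOf (X.induce S) X := by
  classical
  have hex : ∃ n : ℕ, ∃ S : Set V, S.ncard = n ∧ Nonempty (X →g X.induce S) := by
    refine ⟨_, Set.univ, rfl, ⟨{ toFun := fun v => ⟨v, trivial⟩, map_rel' := ?_ }⟩⟩
    intro a b h
    exact h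
  obtain ⟨S, hS, ⟨g⟩⟩ := Nat.find_spec hex
  refine ⟨S, ?_, ⟨g⟩, ⟨SimpleGraph.Embedding.induce S⟩⟩
  intro f
  apply bijective_hom
  rw [← Finite.injective_iff_bijective, Finite.injective_iff_surjective]
  by_contra hns
  -- a smaller image
  set T : Set V := Set.range fun x : S => ((f x : S) : V) with hT
  have hTS : T ⊂ S := by
    rw [Set.ssubset_iff_subset_ne]
    constructor
    · rintro _ ⟨x, rfl⟩
      exact (f x).2
    · intro h
      apply hns
      intro y
      have : (y : V) ∈ T := by rw [h]; exact y.2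
      obtain ⟨x, hx⟩ := this
      exact ⟨x, Subtype.ext hx⟩
  have hlt : T.ncard < S.ncard := Set.ncard_lt_ncard hTS (Set.toFinite S)
  rw [hS] at hlt
  refine Nat.find_min hex hlt ⟨T, rfl, ⟨{ toFun := fun v => ⟨f (g v), ⟨g v, rfl⟩⟩, map_rel' := ?_ }⟩⟩
  intro a b h
  exact f.map_adj (g.map_adj h)

/-! ### the Shrikhande graph -/

/-- the connection set -/
def conn : Finset (ZMod 4 × ZMod 4) := {(1, 0), (3, 0), (0, 1), (0, 3), (1, 1), (3, 3)}

/-- the Shrikhande graph -/
def shrikhande : SimpleGraph (ZMod 4 × ZMod 4) where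
  Adj x y := y - x ∈ conn
  symm := ⟨by
    intro x y h
    have : ∀ z ∈ conn, -z ∈ conn := by decide
    have h1 := this _ h
    rwa [neg_sub] at h1⟩
  loopless := ⟨by
    intro x h
    rw [sub_self] at h
    revert h
    decide⟩

/-- the Doob graph -/
abbrev doob : SimpleGraph ((ZMod 4 × ZMod 4) × (ZMod 4 × ZMod 4)) := shrikhande □ shrikhande

/-- distance from zero in the Shrikhande graph -/
def wt (x : ZMod 4 × ZMod 4) : ℕ := if x = 0 then 0 else if x ∈ conn then 1 else 2

/-- distance from zero in the Doob graph -/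
def wt2 (x : (ZMod 4 × ZMod 4) × (ZMod 4 × ZMod 4)) : ℕ := wt x.1 + wt x.2

/-- the connection set of the Doob graph -/
def conn2 : Finset ((ZMod 4 × ZMod 4) × (ZMod 4 × ZMod 4)) :=
  (conn.image fun s => (s, 0)) ∪ (conn.image fun s => (0, s))

theorem doob_adj (x y : (ZMod 4 × ZMod 4) × (ZMod 4 × ZMod 4)) :
    doob.Adj x y ↔ y - x ∈ conn2 := by
  rw [SimpleGraph.boxProd_adj]
  simp only [conn2, Finset.mem_union, Finset.mem_image]
  constructor
  · rintro (⟨h, h2⟩ | ⟨h, h2⟩)
    · left
      refine ⟨_, h, ?_⟩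
      ext1
      · rfl
      · rw [Prod.snd_sub, h2, sub_self]
    · right
      refine ⟨_, h, ?_⟩
      ext1
      · rw [Prod.fst_sub, h2, sub_self]
      · rfl
  · rintro (⟨s, hs, h⟩ | ⟨s, hs, h⟩)
    · left
      have h1 := congrArg Prod.fst h
      have h2 := congrArg Prod.snd h
      simp only [Prod.fst_sub, Prod.snd_sub] at h1 h2
      refine ⟨?_, (sub_eq_zero.1 h2.symm).symm⟩
      show y.1 - x.1 ∈ conn
      rw [← h1]; exact hs
    · right
      have h1 := congrArg Prod.fst h
      have h2 := congrArg Prod.snd h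
      simp only [Prod.fst_sub, Prod.snd_sub] at h1 h2
      refine ⟨?_, (sub_eq_zero.1 h1.symm).symm⟩
      show y.2 - x.2 ∈ conn
      rw [← h2]; exact hs

theorem wt2_table : ∀ z : (ZMod 4 × ZMod 4) × (ZMod 4 × ZMod 4),
    (wt2 z = 0 ↔ z = 0) ∧
    (∀ s ∈ conn2, wt2 (z + s) ≤ wt2 z + 1) ∧
    (conn2.filter fun s => wt2 (z + s) + 1 = wt2 z).card = wt2 z ∧
    (conn2.filter fun s => wt2 (z + s) = wt2 z + 1).card = 3 * (4 - wt2 z) := by
  decide +kernel

/-! ### distances -/

theorem walk_bound {V : Type} {X : SimpleGraph V} {d : V → ℕ}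
    (h1 : ∀ v w, X.Adj v w → d w ≤ d v + 1) {u v : V} (p : X.Walk u v) :
    d v ≤ d u + p.length := by
  induction p with
  | nil => simp
  | cons h p ih =>
    have := h1 _ _ h
    rw [SimpleGraph.Walk.length_cons]
    omega

theorem exists_walk {V : Type} {X : SimpleGraph V} {u : V} {d : V → ℕ}
    (h2 : ∀ v, d v ≠ 0 → ∃ w, X.Adj v w ∧ d w + 1 = d v) (h3 : ∀ v, d v = 0 → v = u) :
    ∀ (n : ℕ) (v : V), d v = n → ∃ p : X.Walk v u, p.length = n := by
  intro n
  induction n with
  | zero =>
    intro v hv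
    obtain rfl := h3 v hv
    exact ⟨SimpleGraph.Walk.nil, rfl⟩
  | succ n ih =>
    intro v hv
    obtain ⟨w, hw, hd⟩ := h2 v (by omega)
    obtain ⟨p, hp⟩ := ih w (by omega)
    exact ⟨SimpleGraph.Walk.cons hw p, by rw [SimpleGraph.Walk.length_cons, hp]⟩

theorem dist_eq {V : Type} {X : SimpleGraph V} {u : V} {d : V → ℕ} (h0 : d u = 0)
    (h1 : ∀ v w, X.Adj v w → d w ≤ d v + 1)
    (h2 : ∀ v, d v ≠ 0 → ∃ w, X.Adj v w ∧ d w + 1 = d v) (h3 : ∀ v, d v = 0 → v = u) (v : V) :
    X.Reachable u v ∧ X.dist u v = d v := by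
  obtain ⟨p, hp⟩ := exists_walk h2 h3 (d v) v rfl
  have hr : X.Reachable u v := p.reachable.symm
  refine ⟨hr, le_antisymm ?_ ?_⟩
  · rw [SimpleGraph.dist_comm, ← hp]
    exact SimpleGraph.dist_le p
  · obtain ⟨q, hq⟩ := hr.exists_walk_length_eq_dist
    have := walk_bound h1 q
    omega

theorem doob_dist (u v : (ZMod 4 × ZMod 4) × (ZMod 4 × ZMod 4)) :
    doob.Reachable u v ∧ doob.dist u v = wt2 (v - u) := by
  refine dist_eq (d := fun v => wt2 (v - u)) ?_ ?_ ?_ ?_ v
  · show wt2 (u - u) = 0
    rw [sub_self]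
    exact (wt2_table 0).1.2 rfl
  · intro v w h
    rw [doob_adj] at h
    have := (wt2_table (v - u)).2.1 _ h
    rwa [show v - u + (w - v) = w - u by abel] at this
  · intro v h
    have h1 := (wt2_table (v - u)).2.2.1
    have h2 : 0 < (conn2.filter fun s => wt2 ((v - u) + s) + 1 = wt2 (v - u)).card := by
      rw [h1]; exact Nat.pos_of_ne_zero h
    obtain ⟨s, hs⟩ := Finset.card_pos.1 h2
    rw [Finset.mem_filter] at hs
    refine ⟨v + s, ?_, ?_⟩
    · rw [doob_adj, add_sub_cancel_left]; exact hs.1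
    · show wt2 (v + s - u) + 1 = wt2 (v - u)
      rw [show v + s - u = v - u + s by abel]
      exact hs.2
  · intro v h
    exact sub_eq_zero.1 ((wt2_table (v - u)).1.1 h)

theorem count_eq (v : (ZMod 4 × ZMod 4) × (ZMod 4 × ZMod 4))
    (P : (ZMod 4 × ZMod 4) × (ZMod 4 × ZMod 4) → Prop) [DecidablePred P] :
    {w | doob.Adj v w ∧ P w}.ncard = (conn2.filter fun s => P (v + s)).card := by
  have : {w | doob.Adj v w ∧ P w} = (fun s => v + s) '' (conn2.filter fun s => P (v + s) : Set _) := by
    ext w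
    simp only [Set.mem_ofPred_eq, doob_adj, Set.mem_image, Finset.coe_filter]
    constructor
    · rintro ⟨h, hP⟩
      exact ⟨w - v, ⟨h, by rwa [add_sub_cancel]⟩, add_sub_cancel _ _⟩
    · rintro ⟨s, ⟨h, hP⟩, rfl⟩
      exact ⟨by rwa [add_sub_cancel_left], hP⟩
  rw [this, Set.ncard_image_of_injective _ (add_right_injective v), Set.ncard_coe_finset]

theorem doob_regular : IsDistanceRegular doob := by
  refine ⟨{ preconnected := fun u v => (doob_dist u v).1, nonempty := ⟨0⟩ },
    fun i => 3 * (4 - i), fun i => i, fun u v => ⟨?_, ?_⟩⟩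
  · simp only [(doob_dist u _).2]
    rw [count_eq v (fun w => wt2 (w - u) + 1 = wt2 (v - u))]
    refine Eq.trans ?_ (wt2_table (v - u)).2.2.1
    congr 1
    refine Finset.filter_congr fun s _ => ?_
    rw [show v + s - u = v - u + s by abel]
  · simp only [(doob_dist u _).2]
    rw [count_eq v (fun w => wt2 (w - u) = wt2 (v - u) + 1)]
    refine Eq.trans ?_ (wt2_table (v - u)).2.2.2
    congr 1
    refine Finset.filter_congr fun s _ => ?_
    rw [show v + s - u = v - u + s by abel]

/-! ### the retraction -/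

/-- the endomorphism `(x, y) ↦ (x + y, 0)` -/
def retr : doob →g doob where
  toFun z := (z.1 + z.2, 0)
  map_rel' := by
    intro x y h
    rw [SimpleGraph.boxProd_adj] at h ⊢
    left
    refine ⟨?_, rfl⟩
    show (y.1 + y.2) - (x.1 + x.2) ∈ conn
    rcases h with ⟨h, h2⟩ | ⟨h, h2⟩
    · rw [h2, add_sub_add_right_eq_sub]; exact h
    · rw [h2, add_sub_add_left_eq_sub]; exact h

theorem not_core : ¬ IsCore doob := by
  intro h
  obtain ⟨e, he⟩ := h retr
  have h1 : e ((1, 0), 0) = e (0, (1, 0)) := by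
    rw [he, he]
    show (((1, 0) : ZMod 4 × ZMod 4) + 0, (0 : ZMod 4 × ZMod 4)) = ((0 : ZMod 4 × ZMod 4) + (1, 0), 0)
    rw [add_zero, zero_add]
  have h2 := e.injective h1
  have h3 := congrArg (fun z => z.1.1) h2
  revert h3
  decide

theorem iso_core {V W : Type} {X : SimpleGraph V} {Y : SimpleGraph W} (e : X ≃g Y)
    (h : IsCore Y) : IsCore X := by
  intro f
  obtain ⟨g, hg⟩ := h ((e.toHom.comp f).comp e.symm.toHom)
  refine ⟨(e.trans g).trans e.symm, fun v => ?_⟩
  have h1 := hg (e v)
  have h2 : ((e.toHom.comp f).comp e.symm.toHom) (e v) = e (f v) := by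
    show e (f (e.symm (e v))) = e (f v)
    rw [e.symm_apply_apply]
  rw [h2] at h1
  show e.symm (g (e v)) = f v
  rw [h1, e.symm_apply_apply]

/-! ### cliques and colourings -/

theorem no_four_clique (f : Fin 4 → (ZMod 4 × ZMod 4) × (ZMod 4 × ZMod 4))
    (h : ∀ i j, i ≠ j → doob.Adj (f i) (f j)) : False := by
  have key : ∀ a ∈ conn2, ∀ b ∈ conn2, ∀ c ∈ conn2,
      ¬ (b - a ∈ conn2 ∧ c - a ∈ conn2 ∧ c - b ∈ conn2) := by decide +kernel
  have h1 := fun i j (hij : i ≠ j) => (doob_adj _ _).1 (h i j hij)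
  refine key _ (h1 0 1 (by decide)) _ (h1 0 2 (by decide)) _ (h1 0 3 (by decide)) ⟨?_, ?_, ?_⟩
  · rw [sub_sub_sub_cancel_right]; exact h1 1 2 (by decide)
  · rw [sub_sub_sub_cancel_right]; exact h1 1 3 (by decide)
  · rw [sub_sub_sub_cancel_right]; exact h1 2 3 (by decide)

theorem not_three_colorable (c : ZMod 4 × ZMod 4 → Fin 3)
    (h : ∀ x y, shrikhande.Adj x y → c x ≠ c y) : False := by
  have hc : ∀ x : ZMod 4 × ZMod 4, ∀ s ∈ conn, c x ≠ c (x + s) := by
    intro x s hs
    apply h
    show x + s - x ∈ conn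
    rwa [add_sub_cancel_left]
  have fin3' : ∀ p q r t : Fin 3, ¬ (p ≠ q ∧ p ≠ r ∧ q ≠ r ∧ q ≠ t ∧ r ≠ t ∧ t ≠ p) := by
    decide
  have fin3 : ∀ p q r t : Fin 3, p ≠ q → p ≠ r → q ≠ r → q ≠ t → r ≠ t → t = p := by
    intro p q r t h1 h2 h3 h4 h5
    by_contra h6
    exact fin3' p q r t ⟨h1, h2, h3, h4, h5, h6⟩
  -- two opposite vertices of two triangles with a common edge
  have A : ∀ x, c (x + (2, 1)) = c x := by
    intro x
    refine fin3 _ (c (x + (1, 0))) (c (x + (1, 1))) _ (hc x _ (by decide)) (hc x _ (by decide))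
      ?_ ?_ ?_
    · have := hc (x + (1, 0)) (0, 1) (by decide)
      rwa [add_assoc] at this
    · have := hc (x + (1, 0)) (1, 1) (by decide)
      rwa [add_assoc] at this
    · have := hc (x + (1, 1)) (1, 0) (by decide)
      rwa [add_assoc] at this
  have B : ∀ x, c (x + (1, 2)) = c x := by
    intro x
    refine fin3 _ (c (x + (0, 1))) (c (x + (1, 1))) _ (hc x _ (by decide)) (hc x _ (by decide))
      ?_ ?_ ?_
    · have := hc (x + (0, 1)) (1, 0) (by decide)
      rwa [add_assoc] at this
    · have := hc (x + (0, 1)) (1, 1) (by decide)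
      rwa [add_assoc] at this
    · have := hc (x + (1, 1)) (0, 1) (by decide)
      rwa [add_assoc] at this
  have h1 := B (0 + (2, 1))
  rw [A 0, add_assoc] at h1
  exact hc 0 (3, 3) (by decide) h1.symm

theorem not_complete {W : Type} {Y : SimpleGraph W} (h : IsCoreOf Y doob) : Y ≠ ⊤ := by
  classical
  rintro rfl
  obtain ⟨_, ⟨f⟩, ⟨g⟩⟩ := h
  -- no four vertices
  have hno : ∀ k : Fin 4 → W, ¬ Function.Injective k := by
    intro k hk
    refine no_four_clique (fun i => g (k i)) fun i j hij => ?_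
    have : (⊤ : SimpleGraph W).Adj (k i) (k j) := hk.ne hij
    exact g.map_rel_iff.2 this
  -- at most three vertices: a colouring
  have hfin : Finite W := by
    by_contra hinf
    rw [not_finite_iff_infinite] at hinf
    exact hno (fun i => Infinite.natEmbedding W i) fun i j hij =>
      Fin.val_injective ((Infinite.natEmbedding W).injective hij)
  have := Fintype.ofFinite W
  have hcard : Fintype.card W ≤ 3 := by
    by_contra hlt
    push Not at hlt
    have e := Fintype.equivFin W
    exact hno (fun i => e.symm (Fin.castLE hlt i)) fun i j hij =>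
      Fin.castLE_injective hlt (e.symm.injective hij)
  let e := Fintype.equivFin W
  refine not_three_colorable (fun x => Fin.castLE hcard (e (f (x, 0)))) fun x y hxy => ?_
  have hadj : doob.Adj (x, 0) (y, 0) := by
    rw [SimpleGraph.boxProd_adj]
    exact Or.inl ⟨hxy, rfl⟩
  have h1 : f (x, 0) ≠ f (y, 0) := f.map_adj hadj
  intro h2
  exact h1 (e.injective (Fin.castLE_injective hcard h2))

/-- **Main theorem.** The Cartesian product of two copies of the Shrikhande graph is distance-regular, and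
it is not core-complete: it has a core, and no core of it is isomorphic to it or complete. -/
theorem result :
    IsDistanceRegular doob ∧ ¬ CoreComplete doob ∧
    (∃ S : Set ((ZMod 4 × ZMod 4) × (ZMod 4 × ZMod 4)), IsCoreOf (doob.induce S) doob) ∧
    (∀ (W : Type) (Y : SimpleGraph W), IsCoreOf Y doob → ¬ Nonempty (doob ≃g Y) ∧ Y ≠ ⊤) := by
  have h : ∀ (W : Type) (Y : SimpleGraph W), IsCoreOf Y doob →
      ¬ Nonempty (doob ≃g Y) ∧ Y ≠ ⊤ := by
    intro W Y hY
    refine ⟨?_, not_complete hY⟩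
    rintro ⟨e⟩
    exact not_core (iso_core e hY.core)
  refine ⟨doob_regular, ?_, exists_core doob, h⟩
  rintro ⟨W, Y, hY, h1⟩
  rcases h1 with h1 | h1
  · exact (h W Y hY).1 h1
  · exact (h W Y hY).2 h1

end Pool.Agent.Results.MP_06b6d5_co.DoobGraph
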